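import Mathlib

/-!
A connected graph on 24 vertices with multipacking number at most 2, fractional broadcast number
exactly 3 and broadcast domination number 4.
-/

namespace Pool.Agent.Results.MP_93535d_co.Strict

section defs

variable {V : Type*} [Fintype V] [DecidableEq V] (G : SimpleGraph V)

/-- The eccentricity of `v`. -/
noncomputable def ecc (v : V) : ℕ := Finset.univ.sup fun u => G.dist u v

/-- `f` is a dominating broadcast. -/
def DomBroadcast (f : V → ℕ) : Prop :=
  (∀ v, f v ≤ ecc G v) ∧ ∀ u, ∃ v, 1 ≤ f v ∧ G.dist u v ≤ f v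

/-- The broadcast domination number. -/
noncomputable def broadcastNumber : ℕ :=
  sInf {c | ∃ f : V → ℕ, DomBroadcast G f ∧ c = ∑ v, f v}

/-- `M` is a multipacking. -/
def Multipacking (M : Finset V) : Prop :=
  ∀ v, ∀ k, 1 ≤ k → (M.filter fun u => G.dist u v ≤ k).card ≤ k

/-- The multipacking number. -/
noncomputable def multipackingNumber : ℕ :=
  sSup {c | ∃ M : Finset V, Multipacking G M ∧ c = M.card}

/-- Feasible solutions of the linear program. -/
def Feasible (x : V → ℕ → ℝ) : Prop :=
  (∀ v k, 0 ≤ x v k) ∧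
    ∀ u, 1 ≤ ∑ v, ∑ k ∈ Finset.Icc 1 (ecc G v), if G.dist u v ≤ k then x v k else 0

/-- The fractional broadcast number. -/
noncomputable def fractionalBroadcastNumber : ℝ :=
  sInf {c | ∃ x : V → ℕ → ℝ, Feasible G x ∧
    c = ∑ v, ∑ k ∈ Finset.Icc 1 (ecc G v), (k : ℝ) * x v k}

end defs

/-! ### Distances -/

lemma dist_eq {V : Type*} (G : SimpleGraph V) (D : V → V → ℕ)
    (h0 : ∀ u v, D u v = 0 ↔ u = v) (h1 : ∀ u v w, G.Adj v w → D u w ≤ D u v + 1)
    (h2 : ∀ u v, u ≠ v → ∃ w, G.Adj w v ∧ D u w + 1 = D u v) :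
    ∀ u v, G.Reachable u v ∧ G.dist u v = D u v := by
  have hwalk : ∀ (k : ℕ) (u v : V), D u v = k → ∃ p : G.Walk u v, p.length = k := by
    intro k
    induction k with
    | zero =>
      intro u v h
      have := (h0 u v).mp h
      subst this
      exact ⟨SimpleGraph.Walk.nil, rfl⟩
    | succ k ih =>
      intro u v h
      have hne : u ≠ v := by
        intro he
        have := (h0 u v).mpr he
        omega
      obtain ⟨w, hw, hd⟩ := h2 u v hne
      obtain ⟨p, hp⟩ := ih u w (by omega)
      exact ⟨p.concat hw, by rw [SimpleGraph.Walk.length_concat, hp]⟩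
  have hlow : ∀ (u v : V) (p : G.Walk u v), ∀ z, D z v ≤ D z u + p.length := by
    intro u v p
    induction p with
    | nil => intro z; simp
    | cons h p ih =>
      intro z
      have := ih z
      have := h1 z _ _ h
      rw [SimpleGraph.Walk.length_cons]
      omega
  intro u v
  obtain ⟨p, hp⟩ := hwalk _ u v rfl
  refine ⟨p.reachable, le_antisymm ?_ ?_⟩
  · rw [← hp]; exact G.dist_le p
  · obtain ⟨q, hq⟩ := p.reachable.exists_walk_length_eq_dist
    have := hlow u v q u
    rw [(h0 u u).mpr rfl, hq] at this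
    omega

/-! ### The graph -/

/-- The vertex set. -/
abbrev Ver := Fin 2 × Fin 12

/-- The distance function of the circulant graph `C_12(1, 4)`. -/
def d12 (x : Fin 12) : ℕ := [0, 1, 2, 2, 1, 2, 3, 2, 1, 2, 2, 1].getD x 0

/-- The distance function of the graph. -/
def D (u v : Ver) : ℕ := (if u.1 = v.1 then 0 else 1) + d12 (u.2 - v.2)

/-- The Cartesian product of `K_2` and `C_12(1, 4)`. -/
def W : SimpleGraph Ver where
  Adj u v := D u v = 1
  symm := ⟨by decide⟩
  loopless := ⟨by decide⟩

instance : DecidableRel W.Adj := fun u v => inferInstanceAs (Decidable (D u v = 1))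

lemma hD0 : ∀ u v : Ver, D u v = 0 ↔ u = v := by decide

lemma hD2 : ∀ u v : Ver, u ≠ v → ∃ w, W.Adj w v ∧ D u w + 1 = D u v := by decide

lemma hd12 : ∀ x y : Fin 12, d12 (x + y) ≤ d12 x + d12 y := by decide

lemma hD1 (u v w : Ver) (h : W.Adj v w) : D u w ≤ D u v + 1 := by
  have h' : D v w = 1 := h
  have key : D u w ≤ D u v + D v w := by
    unfold D
    have h1 := hd12 (u.2 - v.2) (v.2 - w.2)
    rw [sub_add_sub_cancel] at h1
    split_ifs <;> omega
  omega

lemma distW (u v : Ver) : W.dist u v = D u v := (dist_eq W D hD0 hD1 hD2 u v).2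

lemma connW : W.Connected := by
  have : Nonempty Ver := ⟨(0, 0)⟩
  exact ⟨fun u v => (dist_eq W D hD0 hD1 hD2 u v).1⟩

lemma D_le : ∀ u v : Ver, D u v ≤ 4 := by decide

lemma far4 : ∀ v : Ver, ∃ u, D u v = 4 := by decide

lemma ball1 : ∀ v : Ver, (Finset.univ.filter fun u => D u v ≤ 1).card = 6 := by decide

lemma ball2 : ∀ v : Ver, (Finset.univ.filter fun u => D u v ≤ 2).card = 16 := by decide

lemma ball2' : ∀ v : Ver, (Finset.univ.filter fun u => D v u ≤ 2).card = 16 := by decide

lemma ball3 : ∀ v : Ver, (Finset.univ.filter fun u => D u v ≤ 3).card = 23 := by decide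

lemma triple : ∀ a b : Ver, 3 ≤ D a b → ∀ c : Ver, 3 ≤ D a c → 3 ≤ D b c →
    ∃ v, D a v ≤ 2 ∧ D b v ≤ 2 ∧ D c v ≤ 2 := by decide

lemma pairNear : ∀ a b : Ver, D a b ≤ 2 → ∃ v, D a v ≤ 1 ∧ D b v ≤ 1 := by decide

lemma eccW (v : Ver) : ecc W v = 4 := by
  unfold ecc
  apply le_antisymm
  · refine Finset.sup_le fun u _ => ?_
    rw [distW]; exact D_le u v
  · obtain ⟨u, hu⟩ := far4 v
    rw [← hu, ← distW]
    exact Finset.le_sup (f := fun u => W.dist u v) (Finset.mem_univ u)

/-- The number of vertices in a ball of radius `k`. -/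
lemma ball_card (v : Ver) (k : ℕ) (hk : 1 ≤ k) :
    (Finset.univ.filter fun u => D u v ≤ k).card + k % 2 ≤ 8 * k := by
  rcases (by omega : k = 1 ∨ k = 2 ∨ k = 3 ∨ 4 ≤ k) with rfl | rfl | rfl | h
  · rw [ball1]; norm_num
  · rw [ball2]
  · rw [ball3]
  · have h1 : (Finset.univ.filter fun u => D u v ≤ k).card ≤ 24 := by
      calc _ ≤ (Finset.univ : Finset Ver).card := Finset.card_filter_le _ _
        _ = 24 := by decide
    omega

lemma broadcast_ge (f : Ver → ℕ) (hf : DomBroadcast W f) : 4 ≤ ∑ v, f v := by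
  classical
  have h24 : (Finset.univ : Finset Ver).card = 24 := by decide
  have hcov : (Finset.univ : Finset Ver) ⊆
      (Finset.univ.filter fun v => 1 ≤ f v).biUnion
        (fun v => Finset.univ.filter fun u => D u v ≤ f v) := by
    intro u _
    obtain ⟨v, h1, h2⟩ := hf.2 u
    rw [Finset.mem_biUnion]
    exact ⟨v, by simp [h1], by simp [← distW, h2]⟩
  have hle : 24 ≤ ∑ v ∈ Finset.univ.filter (fun v => 1 ≤ f v),
      (Finset.univ.filter fun u => D u v ≤ f v).card := by
    rw [← h24]
    exact (Finset.card_le_card hcov).trans Finset.card_biUnion_le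
  have hsum : ∑ v ∈ Finset.univ.filter (fun v => 1 ≤ f v),
      ((Finset.univ.filter fun u => D u v ≤ f v).card + f v % 2) ≤
      ∑ v ∈ Finset.univ.filter (fun v => 1 ≤ f v), 8 * f v := by
    refine Finset.sum_le_sum fun v hv => ball_card v (f v) ?_
    simpa using hv
  rw [Finset.sum_add_distrib, ← Finset.mul_sum] at hsum
  have hfil : ∑ v ∈ Finset.univ.filter (fun v => 1 ≤ f v), f v = ∑ v, f v := by
    rw [Finset.sum_filter]
    refine Finset.sum_congr rfl fun v _ => ?_
    split_ifs with h
    · rfl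
    · omega
  have hfil2 : ∑ v ∈ Finset.univ.filter (fun v => 1 ≤ f v), f v % 2 = ∑ v, f v % 2 := by
    rw [Finset.sum_filter]
    refine Finset.sum_congr rfl fun v _ => ?_
    split_ifs with h
    · rfl
    · have : f v = 0 := by omega
      simp [this]
  rw [hfil, hfil2] at hsum
  have hpar : (∑ v, f v) % 2 = (∑ v, f v % 2) % 2 := Finset.sum_nat_mod _ _ _
  by_contra hlt
  have h3 : ∑ v, f v = 3 := by omega
  rw [h3] at hsum hpar
  omega

lemma broadcast_gt : 3 < broadcastNumber W := by
  have hne : {c | ∃ f : Ver → ℕ, DomBroadcast W f ∧ c = ∑ v, f v}.Nonempty := by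
    refine ⟨_, fun v => if v = (0, 0) then 4 else 0, ⟨?_, ?_⟩, rfl⟩
    · intro v
      rw [eccW]
      dsimp only
      split_ifs <;> omega
    · intro u
      refine ⟨(0, 0), by simp, ?_⟩
      rw [distW]
      simpa using D_le u (0, 0)
  obtain ⟨f, hf, hc⟩ := Nat.sInf_mem hne
  unfold broadcastNumber
  rw [hc]
  exact broadcast_ge f hf

lemma packing_le (M : Finset Ver) (hM : Multipacking W M) : M.card ≤ 2 := by
  by_contra hlt
  obtain ⟨a, b, c, ha, hb, hc, hab, hac, hbc⟩ := Finset.two_lt_card_iff.mp (by omega : 2 < M.card)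
  have hpair : ∀ x y, x ∈ M → y ∈ M → x ≠ y → 3 ≤ D x y := by
    intro x y hx hy hxy
    by_contra hcon
    obtain ⟨v, h1, h2⟩ := pairNear x y (by omega)
    have h3 := hM v 1 le_rfl
    have h4 : ({x, y} : Finset Ver) ⊆ M.filter fun u => W.dist u v ≤ 1 := by
      intro z hz
      rcases Finset.mem_insert.mp hz with rfl | hz
      · simp [hx, distW, h1]
      · rw [Finset.mem_singleton] at hz
        subst hz
        simp [hy, distW, h2]
    have h5 := Finset.card_le_card h4
    rw [Finset.card_pair hxy] at h5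
    omega
  obtain ⟨v, h1, h2, h3⟩ := triple a b (hpair a b ha hb hab) c (hpair a c ha hc hac)
    (hpair b c hb hc hbc)
  have h4 := hM v 2 (by norm_num)
  have h5 : ({a, b, c} : Finset Ver) ⊆ M.filter fun u => W.dist u v ≤ 2 := by
    intro z hz
    rcases Finset.mem_insert.mp hz with rfl | hz
    · simp [ha, distW, h1]
    · rcases Finset.mem_insert.mp hz with rfl | hz
      · simp [hb, distW, h2]
      · rw [Finset.mem_singleton] at hz
        subst hz
        simp [hc, distW, h3]
  have h6 := Finset.card_le_card h5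
  rw [Finset.card_eq_three.mpr ⟨a, b, c, hab, hac, hbc, rfl⟩] at h6
  omega

lemma packing_lt : multipackingNumber W < 3 := by
  have : multipackingNumber W ≤ 2 := by
    unfold multipackingNumber
    refine csSup_le ⟨0, ∅, ?_, rfl⟩ ?_
    · intro v k _; simp
    · rintro c ⟨M, hM, rfl⟩
      exact packing_le M hM
  omega

lemma frac_eq : fractionalBroadcastNumber W = 3 := by
  have hmem : (3 : ℝ) ∈ {c | ∃ x : Ver → ℕ → ℝ, Feasible W x ∧
      c = ∑ v, ∑ k ∈ Finset.Icc 1 (ecc W v), (k : ℝ) * x v k} := by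
    refine ⟨fun _ k => if k = 2 then 1 / 16 else 0, ⟨?_, ?_⟩, ?_⟩
    · intro v k
      dsimp only
      split_ifs <;> norm_num
    · intro u
      have h : ∀ v : Ver, ∑ k ∈ Finset.Icc 1 (ecc W v),
          (if W.dist u v ≤ k then (if k = 2 then (1 / 16 : ℝ) else 0) else 0) =
          if D u v ≤ 2 then 1 / 16 else 0 := by
        intro v
        rw [eccW, distW]
        have : Finset.Icc 1 4 = ({1, 2, 3, 4} : Finset ℕ) := by decide
        rw [this]
        simp
      rw [Finset.sum_congr rfl fun v _ => h v, ← Finset.sum_filter, Finset.sum_const, ball2' u]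
      norm_num
    · have h : ∀ v : Ver, ∑ k ∈ Finset.Icc 1 (ecc W v),
          ((k : ℝ) * (if k = 2 then (1 / 16 : ℝ) else 0)) = 1 / 8 := by
        intro v
        rw [eccW]
        have : Finset.Icc 1 4 = ({1, 2, 3, 4} : Finset ℕ) := by decide
        rw [this]
        norm_num
      rw [Finset.sum_congr rfl fun v _ => h v, Finset.sum_const, Finset.card_univ]
      have : Fintype.card Ver = 24 := by decide
      rw [this]; norm_num
  have hlow : ∀ c ∈ {c | ∃ x : Ver → ℕ → ℝ, Feasible W x ∧
      c = ∑ v, ∑ k ∈ Finset.Icc 1 (ecc W v), (k : ℝ) * x v k}, (3 : ℝ) ≤ c := by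
    rintro c ⟨x, ⟨hx0, hx1⟩, rfl⟩
    have h1 : (24 : ℝ) ≤ ∑ u : Ver, ∑ v, ∑ k ∈ Finset.Icc 1 (ecc W v),
        (if W.dist u v ≤ k then x v k else 0) := by
      calc (24 : ℝ) = ∑ _u : Ver, (1 : ℝ) := by
            rw [Finset.sum_const, Finset.card_univ]
            have : Fintype.card Ver = 24 := by decide
            rw [this]; norm_num
        _ ≤ _ := Finset.sum_le_sum fun u _ => hx1 u
    have h2 : ∑ u : Ver, ∑ v, ∑ k ∈ Finset.Icc 1 (ecc W v),
        (if W.dist u v ≤ k then x v k else 0) =
        ∑ v, ∑ k ∈ Finset.Icc 1 (ecc W v),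
          ((Finset.univ.filter fun u => D u v ≤ k).card : ℝ) * x v k := by
      rw [Finset.sum_comm]
      refine Finset.sum_congr rfl fun v _ => ?_
      rw [Finset.sum_comm]
      refine Finset.sum_congr rfl fun k _ => ?_
      rw [← Finset.sum_filter, Finset.sum_const, nsmul_eq_mul]
      simp only [distW]
    have h3 : ∑ v, ∑ k ∈ Finset.Icc 1 (ecc W v),
          ((Finset.univ.filter fun u => D u v ≤ k).card : ℝ) * x v k ≤
        ∑ v, ∑ k ∈ Finset.Icc 1 (ecc W v), 8 * ((k : ℝ) * x v k) := by
      refine Finset.sum_le_sum fun v _ => Finset.sum_le_sum fun k hk => ?_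
      have h4 := ball_card v k (Finset.mem_Icc.mp hk).1
      have h5 : ((Finset.univ.filter fun u => D u v ≤ k).card : ℝ) ≤ 8 * k := by
        exact_mod_cast (by omega : (Finset.univ.filter fun u => D u v ≤ k).card ≤ 8 * k)
      nlinarith [hx0 v k]
    simp only [← Finset.mul_sum] at h3
    linarith
  unfold fractionalBroadcastNumber
  exact le_antisymm (csInf_le ⟨3, hlow⟩ hmem) (le_csInf ⟨3, hmem⟩ hlow)

/-- **Main theorem.** There is a connected graph whose fractional broadcast number is an integer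
strictly between its multipacking number and its broadcast domination number. -/
theorem result : ∃ (V : Type) (_ : Fintype V) (_ : DecidableEq V) (G : SimpleGraph V) (m : ℕ),
    G.Connected ∧ fractionalBroadcastNumber G = m ∧
      multipackingNumber G < m ∧ m < broadcastNumber G :=
  ⟨Ver, inferInstance, inferInstance, W, 3, connW, by rw [frac_eq]; norm_num, packing_lt,
    broadcast_gt⟩

end Pool.Agent.Results.MP_93535d_co.Strict
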